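import Mathlib
import Pool.Agent.W5h94.RZ.Det

/-!
# MP_eea824_ag, Q1: real zero polynomials with two shared variables need not have an amalgam

The real zero polynomials

`p = 1 - x₁² - x₂² + y (1 - x₁) = (1 - x₁) (1 + x₁ + y) - x₂²` and
`q = 1 - x₁² - x₂² + z (1 - x₂²) = det [[1, x₁, x₂], [x₁, 1 + z, 0], [x₂, 0, 1]]`

agree for `y = 0`, `z = 0`, but there is no real zero polynomial `r` in `x₁, x₂, y, z`, of whatever
degree, with `r(x, y, 0) = p` and `r(x, 0, z) = q`.
-/

set_option autoImplicit false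

namespace Pool.Agent.Results.MP_eea824_ag.NoAmalgam

open MvPolynomial

/-- `f` is a real zero polynomial: for every real vector `a` and every complex number `c` with
`f(c a) = 0`, the number `c` is real. -/
def IsRealZero {σ : Type} (f : MvPolynomial σ ℝ) : Prop :=
  ∀ (a : σ → ℝ) (c : ℂ), aeval (fun i => c * (a i : ℂ)) f = 0 → c.im = 0

/-- `p(x, 0)` for a polynomial `p(x, y)` in the two variables `x = (x₁, x₂)` and the variables
`y = (y₁, ..., y_m)`. -/
noncomputable def shared {m : ℕ} (p : MvPolynomial (Fin 2 ⊕ Fin m) ℝ) : MvPolynomial (Fin 2) ℝ :=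
  aeval (Sum.elim (fun i => (X i : MvPolynomial (Fin 2) ℝ)) (fun _ => 0)) p

/-- `r(x, y, 0)` for a polynomial `r(x, y, z)`. -/
noncomputable def xyPart {m n : ℕ} (r : MvPolynomial (Fin 2 ⊕ Fin m ⊕ Fin n) ℝ) :
    MvPolynomial (Fin 2 ⊕ Fin m) ℝ :=
  aeval (Sum.elim (fun i => (X (Sum.inl i) : MvPolynomial (Fin 2 ⊕ Fin m) ℝ))
    (Sum.elim (fun j => X (Sum.inr j)) (fun _ => 0))) r

/-- `r(x, 0, z)` for a polynomial `r(x, y, z)`. -/
noncomputable def xzPart {m n : ℕ} (r : MvPolynomial (Fin 2 ⊕ Fin m ⊕ Fin n) ℝ) :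
    MvPolynomial (Fin 2 ⊕ Fin n) ℝ :=
  aeval (Sum.elim (fun i => (X (Sum.inl i) : MvPolynomial (Fin 2 ⊕ Fin n) ℝ))
    (Sum.elim (fun _ => 0) (fun k => X (Sum.inr k)))) r

/-- `p = 1 - x₁² - x₂² + y₁ (1 - x₁)` -/
noncomputable def pp {m : ℕ} (j : Fin m) : MvPolynomial (Fin 2 ⊕ Fin m) ℝ :=
  1 - X (Sum.inl 0) ^ 2 - X (Sum.inl 1) ^ 2 + X (Sum.inr j) * (1 - X (Sum.inl 0))

/-- `q = 1 - x₁² - x₂² + z₁ (1 - x₂²)` -/
noncomputable def qq {n : ℕ} (k : Fin n) : MvPolynomial (Fin 2 ⊕ Fin n) ℝ :=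
  1 - X (Sum.inl 0) ^ 2 - X (Sum.inl 1) ^ 2 + X (Sum.inr k) * (1 - X (Sum.inl 1) ^ 2)

theorem pp_realZero {m : ℕ} (j : Fin m) : IsRealZero (pp j) := by
  intro a c h
  have hM : (!![-a (Sum.inl 0), a (Sum.inl 1); a (Sum.inl 1), a (Sum.inl 0) + a (Sum.inr j)] :
      Matrix (Fin 2) (Fin 2) ℝ).IsSymm := by
    ext i j
    fin_cases i <;> fin_cases j <;> rfl
  apply Pool.Agent.W5h94.RZ.det_real _ hM c
  rw [Matrix.det_fin_two]
  simp only [pp, map_add, map_sub, map_mul, map_pow, map_one, aeval_X] at h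
  simp only [Matrix.add_apply, Matrix.smul_apply, Matrix.map_apply, Matrix.of_apply,
    Matrix.cons_val', Matrix.cons_val_zero, Matrix.cons_val_one, Matrix.cons_val_fin_one,
    Matrix.one_apply, smul_eq_mul]
  simp only [Complex.ofReal_neg, Complex.ofReal_add]
  norm_num
  linear_combination h

theorem qq_realZero {n : ℕ} (k : Fin n) : IsRealZero (qq k) := by
  intro a c h
  have hM : (!![0, a (Sum.inl 0), a (Sum.inl 1); a (Sum.inl 0), a (Sum.inr k), 0;
      a (Sum.inl 1), 0, 0] : Matrix (Fin 3) (Fin 3) ℝ).IsSymm := by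
    ext i j
    fin_cases i <;> fin_cases j <;> rfl
  apply Pool.Agent.W5h94.RZ.det_real _ hM c
  rw [Matrix.det_fin_three]
  simp only [qq, map_add, map_sub, map_mul, map_pow, map_one, aeval_X] at h
  have h02 : ((0 : Fin 3) = 2) = False := by simp
  have h20 : ((2 : Fin 3) = 0) = False := by simp
  have h12 : ((1 : Fin 3) = 2) = False := by simp
  have h21 : ((2 : Fin 3) = 1) = False := by simp
  have h01 : ((0 : Fin 3) = 1) = False := by simp
  have h10 : ((1 : Fin 3) = 0) = False := by simp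
  simp only [Matrix.add_apply, Matrix.smul_apply, Matrix.map_apply, Matrix.of_apply,
    Matrix.cons_val', Matrix.cons_val_zero, Matrix.cons_val_one, Matrix.cons_val_fin_one,
    Matrix.cons_val, Matrix.one_apply, smul_eq_mul, h02, h20, h12, h21, h01, h10, if_false,
    if_true, Complex.ofReal_zero]
  linear_combination h

theorem pp_degree {m : ℕ} (j : Fin m) : (pp j).totalDegree ≤ 3 := by
  unfold pp
  refine (totalDegree_add _ _).trans (max_le ?_ ?_)
  · refine (totalDegree_sub _ _).trans (max_le ((totalDegree_sub _ _).trans (max_le ?_ ?_)) ?_)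
    · simp
    · rw [totalDegree_X_pow]; norm_num
    · rw [totalDegree_X_pow]; norm_num
  · refine (totalDegree_mul _ _).trans ?_
    have h1 : (1 - X (Sum.inl 0) : MvPolynomial (Fin 2 ⊕ Fin m) ℝ).totalDegree ≤ 1 := by
      refine (totalDegree_sub _ _).trans (max_le ?_ ?_)
      · simp
      · rw [totalDegree_X]
    rw [totalDegree_X]
    omega

theorem qq_degree {n : ℕ} (k : Fin n) : (qq k).totalDegree ≤ 3 := by
  unfold qq
  refine (totalDegree_add _ _).trans (max_le ?_ ?_)
  · refine (totalDegree_sub _ _).trans (max_le ((totalDegree_sub _ _).trans (max_le ?_ ?_)) ?_)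
    · simp
    · rw [totalDegree_X_pow]; norm_num
    · rw [totalDegree_X_pow]; norm_num
  · refine (totalDegree_mul _ _).trans ?_
    have h1 : (1 - X (Sum.inl 1) ^ 2 : MvPolynomial (Fin 2 ⊕ Fin n) ℝ).totalDegree ≤ 2 := by
      refine (totalDegree_sub _ _).trans (max_le ?_ ?_)
      · simp
      · rw [totalDegree_X_pow]
    rw [totalDegree_X]
    omega

/-- the substitution which leaves the variables `x₁, x₂, y_j, z_k` -/
noncomputable def subs {m n : ℕ} (j : Fin m) (k : Fin n) :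
    Fin 2 ⊕ Fin m ⊕ Fin n → MvPolynomial (Fin 4) ℝ :=
  Sum.elim ![X 0, X 1] (Sum.elim (fun i => if i = j then X 2 else 0)
    (fun i => if i = k then X 3 else 0))

/-- the corresponding point -/
def pt {A : Type} [Zero A] {m n : ℕ} (j : Fin m) (k : Fin n) (v : Fin 4 → A) :
    Fin 2 ⊕ Fin m ⊕ Fin n → A :=
  Sum.elim ![v 0, v 1] (Sum.elim (fun i => if i = j then v 2 else 0)
    (fun i => if i = k then v 3 else 0))

theorem aeval_subs {A : Type} [CommRing A] [Algebra ℝ A] {m n : ℕ} (j : Fin m) (k : Fin n)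
    (v : Fin 4 → A) (r : MvPolynomial (Fin 2 ⊕ Fin m ⊕ Fin n) ℝ) :
    aeval v (aeval (subs j k) r) = aeval (pt j k v) r := by
  rw [comp_aeval_apply]
  congr 2
  funext i
  rcases i with i | i | i
  · fin_cases i <;> simp [subs, pt]
  · simp only [subs, pt, Sum.elim_inr, Sum.elim_inl]
    split_ifs <;> simp
  · simp only [subs, pt, Sum.elim_inr]
    split_ifs <;> simp

/-- **Q1 is false for every `d ≥ 3` and all `m, n ≥ 1`.** For all `m, n ≥ 1` and `d ≥ 3` there are
real zero polynomials `p(x, y)` and `q(x, z)` of degree at most `d` in `x = (x₁, x₂)` and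
`y = (y₁, ..., y_m)`, resp. `z = (z₁, ..., z_n)`, with `p(x, 0) = q(x, 0)`, such that no real zero
polynomial `r(x, y, z)`, of whatever degree, satisfies `r(x, y, 0) = p` and `r(x, 0, z) = q`. -/
theorem result (d m n : ℕ) (hd : 3 ≤ d) (hm : 1 ≤ m) (hn : 1 ≤ n) :
    ∃ (p : MvPolynomial (Fin 2 ⊕ Fin m) ℝ) (q : MvPolynomial (Fin 2 ⊕ Fin n) ℝ),
      IsRealZero p ∧ IsRealZero q ∧ p.totalDegree ≤ d ∧ q.totalDegree ≤ d ∧
      shared p = shared q ∧
      ∀ r : MvPolynomial (Fin 2 ⊕ Fin m ⊕ Fin n) ℝ, IsRealZero r →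
        ¬ (xyPart r = p ∧ xzPart r = q) := by
  set j : Fin m := ⟨0, hm⟩
  set k : Fin n := ⟨0, hn⟩
  refine ⟨pp j, qq k, pp_realZero j, qq_realZero k, (pp_degree j).trans hd,
    (qq_degree k).trans hd, ?_, ?_⟩
  · simp [shared, pp, qq]
  · rintro r hr ⟨h1, h2⟩
    have hr' : Pool.Agent.W5h94.RZ.IsRealZero (aeval (subs j k) r) := by
      intro a c hc
      rw [aeval_subs] at hc
      apply hr (pt j k a) c
      rw [← hc]
      congr 2
      funext i
      rcases i with i | i | i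
      · fin_cases i <;> simp [pt]
      · simp only [pt, Sum.elim_inr, Sum.elim_inl]
        split_ifs <;> simp
      · simp only [pt, Sum.elim_inr]
        split_ifs <;> simp
    apply Pool.Agent.W5h94.RZ.no_amalgam (aeval (subs j k) r) hr'
    · intro x₁ x₂ y
      have e1 : eval (Sum.elim ![x₁, x₂] (fun i => if i = j then y else 0)) (xyPart r) =
          1 - x₁ ^ 2 - x₂ ^ 2 + y * (1 - x₁) := by
        rw [h1]
        simp [pp]
      rw [← e1, xyPart, ← aeval_eq_eval, ← aeval_eq_eval, aeval_subs, comp_aeval_apply]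
      congr 2
      funext i
      rcases i with i | i | i
      · fin_cases i <;> simp [pt]
      · simp [pt]
      · simp [pt]
    · intro x₁ x₂ z
      have e1 : eval (Sum.elim ![x₁, x₂] (fun i => if i = k then z else 0)) (xzPart r) =
          1 - x₁ ^ 2 - x₂ ^ 2 + z * (1 - x₂ ^ 2) := by
        rw [h2]
        simp [qq]
      rw [← e1, xzPart, ← aeval_eq_eval, ← aeval_eq_eval, aeval_subs, comp_aeval_apply]
      congr 2
      funext i
      rcases i with i | i | i
      · fin_cases i <;> simp [pt]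
      · simp [pt]
      · simp [pt]

end Pool.Agent.Results.MP_eea824_ag.NoAmalgam
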